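import Pool.Agent.H64.BL.Final

/-!
Every blocking set of `n` non-collinear points of the plane has at least `0.338 n` points,
for every `n ≥ 10^6`.
-/

namespace H64.Kept.BeyondOneThird

open H64.BL

theorem result (n : ℕ) (hn : 10 ^ 6 ≤ n) : (338 / 1000 : ℝ) * n ≤ fBlock n :=
  fBlock_bound n hn

end H64.Kept.BeyondOneThird
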